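import Mathlib
import Pool.Agent.Q186.Toep.Defs
import Pool.Agent.Q186.Toep.Proof

/-!
# MP_3abc29_an: the spectrum of a Toeplitz operator with rational symbol is not a spectral set

For `0 < c < 1` let `F(z) = z + c / z`, which maps the unit circle injectively onto an ellipse.
The Toeplitz operator `T = S + c S^*` satisfies `D_n(T) 1 = z ^ n - c z ^ (n - 2)` for the
polynomials `D_n` with `D_n(α + c / α) = α ^ n + (c / α) ^ n`, so `‖D_n(T)‖ ≥ √(1 + c²)`, while
`|D_n| ≤ 1 + c ^ n` on the spectrum. For large `n` this contradicts the spectral set property.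

The unit circle is `AddCircle (1 : ℝ)`: the point `x` stands for `fourier 1 x = e^{2πix}`.
-/

set_option autoImplicit false

open MeasureTheory AddCircle
open Pool.Agent.Q186.Toep
open scoped InnerProductSpace ComplexConjugate

namespace Pool.Agent.Results.MP_3abc29_an.Ellipse

/-- **The spectrum of a Toeplitz operator with rational symbol need not be a spectral set.**
Let `H2` be the Hardy space, that is, the space of all functions in `L²` of the circle whose
Fourier coefficients of negative index vanish. For every `0 < c < 1` the rational function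
`F(z) = (z ^ 2 + c) / z = z + c / z` maps the unit circle continuously and injectively (onto an
ellipse, a simple closed curve), and its Toeplitz operator `T f = P (F f)` on `H2`, characterised
by `⟪g, T f⟫ = ∫ conj g F f`, does not have its spectrum as a spectral set; there even is a
polynomial `p` such that `‖p(T)‖` is larger than the supremum of `|p|` on the spectrum of `T`. -/
theorem result (H2 : Submodule ℂ (Lp ℂ 2 (haarAddCircle (T := (1 : ℝ)))))
    (hH2 : ∀ f : Lp ℂ 2 (haarAddCircle (T := (1 : ℝ))),
      f ∈ H2 ↔ ∀ n : ℤ, n < 0 → fourierCoeff f n = 0)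
    (c : ℝ) (hc0 : 0 < c) (hc1 : c < 1) :
    (Continuous fun z : Circle => ((z : ℂ) ^ 2 + c) / z) ∧
    (Function.Injective fun z : Circle => ((z : ℂ) ^ 2 + c) / z) ∧
    ∃ T : H2 →L[ℂ] H2,
      (∀ f g : H2, ⟪g, T f⟫_ℂ =
        ∫ x, conj (g.1 x) * (((fourier 1 x : ℂ) ^ 2 + c) / fourier 1 x * f.1 x) ∂haarAddCircle) ∧
      PolynomialBoundFails T ∧ ¬ IsSpectralSet (spectrum ℂ T) T := by
  obtain rfl : H2 = Pool.Agent.Q186.Toep.H2 := by
    ext f
    rw [hH2, mem_H2_iff]
  refine ⟨(by fun_prop : Continuous fun z : Circle => ((z : ℂ) ^ 2 + (c : ℂ))).div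
    (by fun_prop) fun z => Circle.coe_ne_zero z, curve_injective hc0 hc1, T c, ?_,
    violation hc0 hc1, (violation hc0 hc1).not_spectral⟩
  exact isToeplitz_T c

end Pool.Agent.Results.MP_3abc29_an.Ellipse
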